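import Pool.Agent.Helper20_Mackey.Final

/-!
# MP_093cae_al, Q1 (full answer: both parts hold for every finite group)

For every finite group `G`: if `𝒪 ⊆ 𝒪'` are transfer systems for `G`, then the global dimension of
the category of rational `𝒪'`-Mackey functors is at most that of the category of rational
`𝒪`-Mackey functors; and the global dimension is `0` exactly for the complete transfer system.
-/

set_option autoImplicit false

open Pool.Agent.Helper20_Mackey

/-- Both parts of Q1 hold for every finite group. -/
theorem Pool.Agent.Results.MP_093cae_al.GlobalDimensionMonotone.result :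
    ∀ (G : Type) [Group G] [Finite G],
      (∀ O O' : TransferSystem G, (∀ K H, O.rel K H → O'.rel K H) → gldim O' ≤ gldim O) ∧
      ∀ O : TransferSystem G, gldim O = 0 ↔ ∀ K H, K ≤ H → O.rel K H :=
  fun _ _ _ => ⟨fun _ _ h => gldim_mono h, fun O => gldim_eq_zero_iff O⟩
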